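import Pool.Agent.H9.DP.Poset
import Pool.Agent.H9.DP.Check
import Pool.Agent.H9.DP.Refute

/-!
# The Interval Property fails for the rank functions of 1-differential posets

There are `1`-differential posets with the rank functions
`1, 1, 2, 3, 5, 7, 11, 15, 23, 32, 46, 64, 95, 139, 234, 373, …` and
`1, 1, 2, 3, 5, 7, 11, 15, 23, 32, 46, 66, 95, 139, 234, 373, …`
(with `p_n = p_{n-1} + p_{n-2}` for `n ≥ 14`), but no `1`-differential poset has a rank function
beginning `1, 1, 2, 3, 5, 7, 11, 15, 23, 32, 46, 65`.
-/

namespace Pool.Agent.Results.MP_936fee_co.IntervalPropertyFails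

open DifferentialPosets DPC DPD

/-- The two rank functions agree at all indices except `11`. -/
theorem length_eq : ∀ k, 12 ≤ k → (sq tA 13 k).length = (sq tB 13 k).length := by
  intro k
  induction k using Nat.strong_induction_on with
  | _ k ih =>
    intro hk
    by_cases h : k ≤ 13
    · interval_cases k
      · rw [sq_eq tA 13 12 (by norm_num) (by norm_num), sq_eq tB 13 12 (by norm_num) (by norm_num)]
        rfl
      · rw [sq_eq tA 13 13 (by norm_num) (by norm_num), sq_eq tB 13 13 (by norm_num) (by norm_num)]
        rfl
    · obtain ⟨m, rfl⟩ : ∃ m, k = m + 2 := ⟨k - 2, by omega⟩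
      rw [sq_add_two, if_neg h, sq_add_two, if_neg h, rfx_length, rfx_length,
        ih m (by omega) (by omega), ih (m + 1) (by omega) (by omega)]

/-- No `1`-differential poset has a rank function beginning
`1, 1, 2, 3, 5, 7, 11, 15, 23, 32, 46, 65`. -/
theorem not_beginning (p : ℕ → ℕ) (hp : p ∈ rankFunctions 1) :
    ¬ ∀ m (h : m < [1, 2, 3, 5, 7, 11, 15, 23, 32, 46, 65].length),
      p (m + 1) = [1, 2, 3, 5, 7, 11, 15, 23, 32, 46, 65][m] := by
  obtain ⟨P, i1, i2, i3, hP, hn⟩ := hp
  exact DPS.no_poset _ DPS.refuted hP p hn

/-- **The set of the rank functions of `1`-differential posets does not have the Interval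
Property.** -/
theorem result : ¬ IntervalProperty (rankFunctions 1) := by
  intro hI
  have hA := goodA.mem
  have hB := goodB.mem
  have h1 := hI _ hA _ hB 11 2 (by norm_num)
    (by
      intro j hj
      rcases Nat.lt_or_ge j 12 with h | h
      · show (sq tB 13 j).length = (sq tA 13 j).length
        rw [sq_eq tB 13 j (by norm_num) (by omega), sq_eq tA 13 j (by norm_num) (by omega)]
        interval_cases j <;> first | rfl | exact absurd rfl hj
      · exact (length_eq j h).symm)
    (by
      show (sq tB 13 11).length = (sq tA 13 11).length + 2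
      rw [sq_eq tB 13 11 (by norm_num) (by norm_num), sq_eq tA 13 11 (by norm_num) (by norm_num)]
      rfl)
    1 (by norm_num)
  refine not_beginning _ h1 ?_
  intro m hm
  have hm' : m < 11 := hm
  by_cases hm11 : m = 10
  · subst hm11
    rw [Function.update_self]
    show (sq tA 13 11).length + 1 = 65
    rw [sq_eq tA 13 11 (by norm_num) (by norm_num)]
    rfl
  · rw [Function.update_of_ne (by omega)]
    show (sq tA 13 (m + 1)).length = _
    rw [sq_eq tA 13 (m + 1) (by norm_num) (by omega)]
    have : m < 10 := by omega
    interval_cases m <;> rfl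

end Pool.Agent.Results.MP_936fee_co.IntervalPropertyFails
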